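import Pool.Agent.Helper67.KPG.St2

/-!
# Project KP, chapter G, module OPN: orbits are locally everything
-/

set_option autoImplicit false

namespace Pool.Agent.Helper8.KPG

open Pool.Agent.Helper67.NO Pool.Agent.Helper52.KP Pool.Agent.Helper67.KPG Filter
open scoped Matrix.Norms.Frobenius Topology

universe u

section

variable {g : Type u} [LieRing g] [LieAlgebra ℂ g] [FiniteDimensional ℂ g]

/-- evaluation of a matrix at a vector -/
private noncomputable def evL {N : ℕ} (v : Fin N → ℂ) :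
    Matrix (Fin N) (Fin N) ℂ →ₗ[ℂ] (Fin N → ℂ) where
  toFun M := M.mulVec v
  map_add' M M' := Matrix.add_mulVec _ _ _
  map_smul' c M := by
    rw [RingHom.id_apply]
    exact Matrix.smul_mulVec _ _ _

/-- the matrix of `ad (∑ w j • X j)` -/
private noncomputable def adL {k : ℕ} (X : Fin k → g) : (Fin k → ℂ) →ₗ[ℂ]
    Matrix (Fin (Module.finrank ℂ g)) (Fin (Module.finrank ℂ g)) ℂ :=
  (LinearMap.toMatrix (Module.finBasis ℂ g) (Module.finBasis ℂ g)).toLinearMap ∘ₗ
    (LieAlgebra.ad ℂ g : g →ₗ[ℂ] Module.End ℂ g) ∘ₗ Fintype.linearCombination ℂ X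

private theorem adL_apply {k : ℕ} (X : Fin k → g) (w : Fin k → ℂ) : adL X w =
    LinearMap.toMatrix (Module.finBasis ℂ g) (Module.finBasis ℂ g)
      (LieAlgebra.ad ℂ g (∑ j, w j • X j) : g →ₗ[ℂ] g) := by
  unfold adL
  simp only [LinearMap.comp_apply, LinearEquiv.coe_coe]
  rw [Fintype.linearCombination_apply]
  rfl

private theorem co_eq (x : g) : co x = (Module.finBasis ℂ g).equivFun x := by
  ext i; rfl

private theorem co_expAd (x y : g) : co (expAd x y) =
    (NormedSpace.exp (LinearMap.toMatrix (Module.finBasis ℂ g) (Module.finBasis ℂ g)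
      (LieAlgebra.ad ℂ g x : g →ₗ[ℂ] g))).mulVec (co y) := by
  have h := LinearMap.toMatrix_mulVec_repr (Module.finBasis ℂ g) (Module.finBasis ℂ g)
    (expAd x) y
  unfold expAd at h
  rw [LinearMap.toMatrix_toLin] at h
  exact h.symm

private theorem co_ad (x y : g) : co ⁅x, y⁆ =
    (LinearMap.toMatrix (Module.finBasis ℂ g) (Module.finBasis ℂ g)
      (LieAlgebra.ad ℂ g x : g →ₗ[ℂ] g)).mulVec (co y) := by
  have h := LinearMap.toMatrix_mulVec_repr (Module.finBasis ℂ g) (Module.finBasis ℂ g)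
    (LieAlgebra.ad ℂ g x : g →ₗ[ℂ] g) y
  rw [LieAlgebra.ad_apply] at h
  exact h.symm

private theorem strict_deriv {k : ℕ} (X : Fin k → g) (y : g) :
    HasStrictFDerivAt (fun w : Fin k → ℂ => co (expAd (∑ j, w j • X j) y))
      ((LinearMap.toContinuousLinearMap (evL (co y))).comp
        (LinearMap.toContinuousLinearMap (adL X))) 0 := by
  have h1 : HasStrictFDerivAt (fun w : Fin k → ℂ => adL X w)
      (LinearMap.toContinuousLinearMap (adL X)) 0 :=
    (LinearMap.toContinuousLinearMap (adL X)).hasStrictFDerivAt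
  have h2 : HasStrictFDerivAt (NormedSpace.exp :
      Matrix (Fin (Module.finrank ℂ g)) (Fin (Module.finrank ℂ g)) ℂ → _)
      (1 : Matrix (Fin (Module.finrank ℂ g)) (Fin (Module.finrank ℂ g)) ℂ →L[ℂ] _)
      (adL X 0) := by
    rw [map_zero]
    exact hasStrictFDerivAt_exp_zero
  have h3 : HasStrictFDerivAt (fun M => evL (co y) M)
      (LinearMap.toContinuousLinearMap (evL (co y))) (NormedSpace.exp (adL X 0)) :=
    (LinearMap.toContinuousLinearMap (evL (co y))).hasStrictFDerivAt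
  have h4 := h3.comp (0 : Fin k → ℂ) (h2.comp (0 : Fin k → ℂ) h1)
  have e : (fun w : Fin k → ℂ => co (expAd (∑ j, w j • X j) y)) =
      (fun M => evL (co y) M) ∘ (NormedSpace.exp ∘ fun w : Fin k → ℂ => adL X w) := by
    funext w
    rw [co_expAd, ← adL_apply]
    rfl
  rw [e]
  exact h4

end

theorem hOPN (hGPF : StGPF.{u}) : Pool.Agent.Helper67.KPG.StOPN.{u} := by
  intro g _ _ _ P Q hPQ y hy hsurj
  have hG := hGPF g
  set e := (Module.finBasis ℂ g).equivFun with he
  set Q' : Submodule ℂ (Fin (Module.finrank ℂ g) → ℂ) := Q.map e.toLinearMap with hQ'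
  have hmem : ∀ x : g, co x ∈ Q' ↔ x ∈ Q := by
    intro x
    rw [hQ', co_eq]
    constructor
    · rintro ⟨z, hz, hzx⟩
      have : z = x := e.injective hzx
      rwa [← this]
    · intro hx
      exact ⟨x, hx, rfl⟩
  obtain ⟨π, hπ⟩ := LinearMap.exists_leftInverse_of_injective Q'.subtype
    (LinearMap.ker_eq_bot.2 Q'.subtype_injective)
  have hπ' : ∀ (v : Fin (Module.finrank ℂ g) → ℂ) (hv : v ∈ Q'), π v = ⟨v, hv⟩ := by
    intro v hv
    have := congrArg (fun f => f ⟨v, hv⟩) hπ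
    simpa using this
  set b := Module.finBasis ℂ P with hb
  set X : Fin (Module.finrank ℂ P) → g := fun i => (b i : g) with hX
  have hXP : ∀ w : Fin (Module.finrank ℂ P) → ℂ, ∑ j, w j • X j ∈ P := by
    intro w
    exact Submodule.sum_mem _ fun j _ => Submodule.smul_mem _ _ (b j).2
  have hXs : ∀ x ∈ P, ∃ w : Fin (Module.finrank ℂ P) → ℂ, ∑ j, w j • X j = x := by
    intro x hx
    refine ⟨fun j => b.repr ⟨x, hx⟩ j, ?_⟩
    have h1 := congrArg (Subtype.val) (b.sum_repr ⟨x, hx⟩)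
    rw [AddSubmonoidClass.coe_finsetSum] at h1
    exact h1
  set Θ : (Fin (Module.finrank ℂ P) → ℂ) → (Fin (Module.finrank ℂ g) → ℂ) :=
    fun w => co (expAd (∑ j, w j • X j) y) with hΘ
  have hΘQ : ∀ w, Θ w ∈ Q' := by
    intro w
    rw [hΘ]
    rw [hmem]
    exact hG.sub P Q hPQ _ (hG.exp P _ (hXP w)) y hy
  have hd := (LinearMap.toContinuousLinearMap π).hasStrictFDerivAt (x := Θ 0) |>.comp
    (0 : Fin (Module.finrank ℂ P) → ℂ) (strict_deriv X y)
  have hrange : ((LinearMap.toContinuousLinearMap π).comp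
      ((LinearMap.toContinuousLinearMap (evL (co y))).comp
        (LinearMap.toContinuousLinearMap (adL X)))).range = ⊤ := by
    rw [LinearMap.range_eq_top]
    rintro ⟨v, hv⟩
    obtain ⟨v', hv', rfl⟩ := hv
    obtain ⟨x, hx, hxy⟩ := hsurj v' hv'
    obtain ⟨w, hw⟩ := hXs x hx
    refine ⟨w, ?_⟩
    have h1 : evL (co y) (adL X w) = co v' := by
      rw [adL_apply, hw, ← hxy, co_ad]
      rfl
    show π (evL (co y) (adL X w)) = _
    rw [h1]
    exact hπ' _ _
  have hmap := hd.map_nhds_eq_of_surj hrange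
  have hΘ0 : Θ 0 = co y := by
    rw [hΘ]
    simp only [Pi.zero_apply, zero_smul, Finset.sum_const_zero]
    rw [hG.zero]
  have hnhds : Set.range (fun w => π (Θ w)) ∈ 𝓝 (π (Θ 0)) := by
    have hmap' : Filter.map (fun x => π (Θ x)) (𝓝 0) = 𝓝 (π (Θ 0)) := hmap
    rw [← hmap', Filter.mem_map]
    exact Filter.univ_mem' fun w => ⟨w, rfl⟩
  rw [hΘ0] at hnhds
  obtain ⟨ε, hε, hball⟩ := Metric.mem_nhds_iff.1 hnhds
  refine ⟨ε, hε, fun y' hy' hsize => ?_⟩
  have h1 : π (co y') ∈ Metric.ball (π (co y)) ε := by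
    rw [hπ' _ ((hmem y').2 hy'), hπ' _ ((hmem y).2 hy), Metric.mem_ball, Subtype.dist_eq,
      dist_eq_norm]
    refine lt_of_le_of_lt ?_ hsize
    have hnn : 0 ≤ size (y' - y) := Finset.sum_nonneg fun i _ => norm_nonneg _
    refine (pi_norm_le_iff_of_nonneg hnn).2 fun i => ?_
    have h2 : (co y' - co y) i = (Module.finBasis ℂ g).repr (y' - y) i := by
      rw [map_sub]; rfl
    show ‖(co y' - co y) i‖ ≤ size (y' - y)
    rw [h2]
    exact Finset.single_le_sum (f := fun i => ‖(Module.finBasis ℂ g).repr (y' - y) i‖)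
      (fun i _ => norm_nonneg _) (Finset.mem_univ i)
  obtain ⟨w, hw⟩ := hball h1
  refine ⟨∑ j, w j • X j, hXP w, ?_⟩
  simp only at hw
  rw [hπ' _ (hΘQ w), hπ' _ ((hmem y').2 hy')] at hw
  have h2 : Θ w = co y' := congrArg Subtype.val hw
  rw [hΘ] at h2
  simp only at h2
  rw [co_eq, co_eq] at h2
  exact e.injective h2

end Pool.Agent.Helper8.KPG
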