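import Pool.Agent.Helper67.KPG.St1

/-!
# Project KP, chapter G, module KER
-/

set_option autoImplicit false

namespace Pool.Agent.Helper8.KPG

open Pool.Agent.Helper67.KPG

universe u

variable {V : Type u} [AddCommGroup V] [Module ℂ V] {A B H : Module.End ℂ V}

private theorem comm1 (hHA : H * A - A * H = (2 : ℂ) • A) (i : ℕ) (y : V) :
    H ((A ^ i) y) = (A ^ i) (H y) + (2 * (i : ℂ)) • (A ^ i) y := by
  induction i with
  | zero => simp
  | succ i ih =>
    have h1 : ∀ x, H (A x) = A (H x) + (2 : ℂ) • A x := by
      intro x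
      have := congrArg (fun f => f x) hHA
      simp only [LinearMap.sub_apply, Module.End.mul_apply, LinearMap.smul_apply] at this
      rw [← this]; abel
    rw [pow_succ', Module.End.mul_apply, Module.End.mul_apply, h1, ih, map_add, map_smul]
    push_cast
    module

private theorem comm2 (hHA : H * A - A * H = (2 : ℂ) • A) (hAB : A * B - B * A = H) (i : ℕ)
    (y : V) : (A ^ (i + 1)) (B y) = B ((A ^ (i + 1)) y) +
      ((i : ℂ) + 1) • ((A ^ i) (H y) + (i : ℂ) • (A ^ i) y) := by
  have h1 : ∀ x, A (B x) = B (A x) + H x := by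
    intro x
    have := congrArg (fun f => f x) hAB
    simp only [LinearMap.sub_apply, Module.End.mul_apply] at this
    rw [← this]; abel
  induction i with
  | zero => simp [h1]
  | succ i ih =>
    have h2 : (A ^ (i + 1 + 1)) (B y) = A ((A ^ (i + 1)) (B y)) := by
      rw [pow_succ' A (i + 1), Module.End.mul_apply]
    have h3 : (A ^ (i + 1 + 1)) y = A ((A ^ (i + 1)) y) := by
      rw [pow_succ' A (i + 1), Module.End.mul_apply]
    have h4 : ∀ x, A ((A ^ i) x) = (A ^ (i + 1)) x := by
      intro x
      rw [pow_succ' A i, Module.End.mul_apply]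
    rw [h2, ih, h3, map_add, h1, map_smul, map_add, map_smul, h4, h4, comm1 hHA (i + 1) y]
    push_cast
    module

theorem hKER : Pool.Agent.Helper67.KPG.StKER.{u} := by
  intro V _ _ A B H n hHA hAB hn v hv
  have key : ∀ k : ℕ, A ((Polynomial.aeval H
      (∏ i ∈ Finset.range k, (Polynomial.X - Polynomial.C (i : ℂ)))) v) = 0 ∧
      ∃ y, (Polynomial.aeval H
        (∏ i ∈ Finset.range k, (Polynomial.X - Polynomial.C (i : ℂ)))) v = (A ^ k) y := by
    intro k
    induction k with
    | zero => exact ⟨by simpa using hv, v, by simp⟩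
    | succ k ih =>
      obtain ⟨h1, y, hy⟩ := ih
      set z := (Polynomial.aeval H
        (∏ i ∈ Finset.range k, (Polynomial.X - Polynomial.C (i : ℂ)))) v with hz
      have hstep : (Polynomial.aeval H
          (∏ i ∈ Finset.range (k + 1), (Polynomial.X - Polynomial.C (i : ℂ)))) v =
          H z - (k : ℂ) • z := by
        rw [Finset.prod_range_succ, mul_comm, map_mul, Module.End.mul_apply, ← hz, map_sub,
          Polynomial.aeval_X, Polynomial.aeval_C, LinearMap.sub_apply,
          Module.algebraMap_end_apply]
      rw [hstep]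
      constructor
      · have h2 : H (A z) = A (H z) + (2 : ℂ) • A z := by
          have := congrArg (fun f => f z) hHA
          simp only [LinearMap.sub_apply, Module.End.mul_apply, LinearMap.smul_apply] at this
          rw [← this]; abel
        rw [h1, map_zero, smul_zero, add_zero] at h2
        rw [map_sub, map_smul, h1, smul_zero, sub_zero, ← h2]
      · have h2 := comm2 hHA hAB k y
        have h3 : (A ^ (k + 1)) y = 0 := by
          rw [pow_succ', Module.End.mul_apply, ← hy, h1]
        have h4 := comm1 hHA k y
        rw [h3, map_zero, zero_add] at h2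
        refine ⟨((k : ℂ) + 1)⁻¹ • B y, ?_⟩
        have hk : ((k : ℂ) + 1) ≠ 0 := Nat.cast_add_one_ne_zero k
        rw [map_smul, h2, smul_smul, inv_mul_cancel₀ hk, one_smul, hy, h4]
        module
  obtain ⟨-, y, hy⟩ := key n
  rw [hy, hn]
  rfl

end Pool.Agent.Helper8.KPG
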